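import Pool.Agent.Y203.HN.Main
import Pool.Agent.Helper179.Transfer

/-!
# Equilibrium states of complex Henon maps with an attracting or repelling cycle

Existence and uniqueness of equilibrium states fails for Hölder weights of complex Henon maps: a
freezing phase transition at every attracting (or repelling) cycle, and maps with any number of
sinks, all of whose Dirac masses are equilibrium states of one Hölder weight.
-/

set_option autoImplicit false

open MeasureTheory Filter Topology
open scoped ENNReal NNReal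

namespace Pool.Agent.W2helper6.HN

open Pool.Agent.Helper179.KS Pool.Agent.Helper179.Eq Pool.Agent.Results.MP_636246_an.SinkSaddles
open Pool.Agent.Y203.HN

/-- The elementary Henon map `(x, y) ↦ (p(x) - a y, x)`. -/
noncomputable def elemMap (p : Polynomial ℂ) (a : ℂ) (z : ℂ × ℂ) : ℂ × ℂ :=
  (p.eval z.1 - a * z.2, z.1)

/-- Complex Henon maps: compositions `f₁ ∘ ⋯ ∘ f_m` (`m ≥ 1`) of elementary Henon maps with
polynomials of degree at least `2` and non-zero parameters `a`. -/
inductive IsHenonMap : (ℂ × ℂ → ℂ × ℂ) → Prop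
  | elementary (p : Polynomial ℂ) (a : ℂ) (hp : 2 ≤ p.natDegree) (ha : a ≠ 0) :
      IsHenonMap (elemMap p a)
  | comp (p : Polynomial ℂ) (a : ℂ) (f : ℂ × ℂ → ℂ × ℂ) (hp : 2 ≤ p.natDegree) (ha : a ≠ 0)
      (hf : IsHenonMap f) : IsHenonMap (elemMap p a ∘ f)

lemma conj_elemMap (p : Polynomial ℂ) (a : ℂ) : conj (elemMap p a) = elementaryHenon p a := by
  funext z
  simp [conj, elemMap, elementaryHenon]

lemma conj_comp (f g : ℂ × ℂ → ℂ × ℂ) : conj (f ∘ g) = conj f ∘ conj g := by
  funext z
  simp [conj]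

lemma conj_henon {f : ℂ × ℂ → ℂ × ℂ} (hf : IsHenonMap f) : IsComplexHenon (conj f) := by
  induction hf with
  | elementary p a hp ha =>
    rw [conj_elemMap]
    exact IsComplexHenon.elementary p a hp ha
  | comp p a f hp ha _ ih =>
    rw [conj_comp, conj_elemMap]
    exact IsComplexHenon.comp p a _ hp ha ih

/-- The swap as a continuous linear map. -/
noncomputable def swapL : ℂ × ℂ →L[ℂ] ℂ × ℂ :=
  (ContinuousLinearMap.snd ℂ ℂ ℂ).prod (ContinuousLinearMap.fst ℂ ℂ ℂ)

lemma swapL_apply (v : ℂ × ℂ) : swapL v = v.swap := rfl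

lemma eig_conj {f : ℂ × ℂ → ℂ × ℂ} (hf : Differentiable ℂ f) (m : ℕ) (p : ℂ × ℂ) {c : ℂ}
    (hc : Module.End.HasEigenvalue
      (fderiv ℂ ((conj f)^[m]) p.swap : ℂ × ℂ →ₗ[ℂ] ℂ × ℂ) c) :
    Module.End.HasEigenvalue (fderiv ℂ (f^[m]) p : ℂ × ℂ →ₗ[ℂ] ℂ × ℂ) c := by
  have h1 : (conj f)^[m] = fun z => swapL (f^[m] (swapL z)) := by
    funext z
    rw [conj_iterate]
    rfl
  have hd : HasFDerivAt (f^[m]) (fderiv ℂ (f^[m]) p) (swapL p.swap) := by
    rw [swapL_apply, Prod.swap_swap]
    exact ((hf.iterate m) p).hasFDerivAt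
  have h2 : HasFDerivAt ((conj f)^[m]) (swapL.comp ((fderiv ℂ (f^[m]) p).comp swapL)) p.swap := by
    rw [h1]
    exact swapL.hasFDerivAt.comp p.swap (hd.comp p.swap swapL.hasFDerivAt)
  rw [h2.fderiv] at hc
  obtain ⟨v, hv⟩ := hc.exists_hasEigenvector
  have h3 : swapL (fderiv ℂ (f^[m]) p (swapL v)) = c • v := hv.apply_eq_smul
  have h4 : fderiv ℂ (f^[m]) p (swapL v) = c • swapL v := by
    have := congrArg swapL h3
    rw [map_smul] at this
    rw [← this]
    simp [swapL_apply]
  refine Module.End.hasEigenvalue_of_hasEigenvector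
    (x := swapL v) ⟨Module.End.mem_eigenspace_iff.2 h4, ?_⟩
  intro h
  apply hv.2
  have := congrArg swapL h
  simpa [swapL_apply] using this

lemma cycleData_conj {F : ℂ × ℂ → ℂ × ℂ} {m : ℕ} {p : ℂ × ℂ} {K U : Set (ℂ × ℂ)} {H : ℝ}
    (D : CycleData F m p K U H) :
    CycleData (conj F) m p.swap (Prod.swap ⁻¹' K) (Prod.swap ⁻¹' U) H := by
  have hinv : ∀ ν : Measure (ℂ × ℂ), IsProbabilityMeasure ν → MeasurePreserving (conj F) ν ν →
      IsInvariantProb F (ν.map Prod.swap) := by
    intro ν hν hT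
    have := isInvariantProb_map_swap (f := conj F) (ν := ν) ⟨hν, hT⟩
    rwa [conj_conj] at this
  refine ⟨measurable_conj D.meas, ?_, D.mpos, ?_, D.Hnn, ?_, D.openU.preimage continuous_swap,
    ?_, ?_, ?_, ?_⟩
  · intro z w hzw
    have h1 : F z.swap = F w.swap := Prod.swap_injective hzw
    exact Prod.swap_injective (D.inj h1)
  · rw [conj_iterate, Prod.swap_swap, D.per]
  · exact (Homeomorph.prodComm ℂ ℂ).isCompact_preimage.2 D.cpt
  · intro i
    rw [conj_iterate, Prod.swap_swap, Set.mem_preimage, Prod.swap_swap]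
    exact D.mem i
  · intro ν hν hT
    obtain ⟨h1, h2⟩ := hinv ν hν hT
    exact ae_of_ae_map measurable_swap.aemeasurable (D.supp _ h1 h2)
  · intro ν hν hT
    obtain ⟨h1, h2⟩ := hinv ν hν hT
    have h3 := ae_of_ae_map measurable_swap.aemeasurable (D.sink _ h1 h2)
    filter_upwards [h3] with z hz hzU
    obtain ⟨i, hi⟩ := hz hzU
    refine ⟨i, ?_⟩
    simp only at hi ⊢
    rw [conj_iterate, Prod.swap_swap, hi, Prod.swap_swap]
  · intro ν hν hT
    obtain ⟨h1, h2⟩ := hinv ν hν hT
    have h3 := D.bound _ h1 h2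
    have h4 := ksEntropy_map_swap (conj F) ν
    rw [conj_conj] at h4
    rwa [h4] at h3

/-- The standing data for a Henon map with an attracting or repelling cycle. -/
theorem exists_cycleData {f : ℂ × ℂ → ℂ × ℂ} (hf : IsHenonMap f) {m : ℕ} {p : ℂ × ℂ}
    (h : Att f m p ∨ Rep f m p) : ∃ (K U : Set (ℂ × ℂ)) (H : ℝ), CycleData f m p K U H := by
  obtain ⟨g, G⟩ := exists_good (conj_henon hf)
  have hfd : Differentiable ℂ f := by
    have h1 : Differentiable ℂ (conj f) := G.smooth.differentiable one_ne_zero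
    have h2 : f = fun z => swapL (conj f (swapL z)) := by
      funext z
      simp [swapL_apply, conj]
    rw [h2]
    exact swapL.differentiable.comp (h1.comp swapL.differentiable)
  have h' : Att (conj f) m p.swap ∨ Rep (conj f) m p.swap := by
    rcases h with ⟨h1, h2, h3⟩ | ⟨h1, h2, h3⟩
    · exact Or.inl ⟨h1, by rw [conj_iterate, Prod.swap_swap, h2],
        fun c hc => h3 c (eig_conj hfd m p hc)⟩
    · exact Or.inr ⟨h1, by rw [conj_iterate, Prod.swap_swap, h2],
        fun c hc => h3 c (eig_conj hfd m p hc)⟩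
  obtain ⟨R, H, U, D, _⟩ := exists_data G h'
  have D' := cycleData_conj D
  rw [conj_conj, Prod.swap_swap] at D'
  exact ⟨_, _, H, D'⟩

section phase

variable {f : ℂ × ℂ → ℂ × ℂ} {m : ℕ} {p : ℂ × ℂ} {K U : Set (ℂ × ℂ)} {H : ℝ} {ρ : ℝ}

lemma integral_bump (D : CycleData f m p K U H) (hb0 : ∀ z ∉ U, bump (orb f p) ρ z = 0)
    {ν : Measure (ℂ × ℂ)} (hν : IsInvariantProb f ν) (t : ℝ) :
    ∫ z, t * bump (orb f p) ρ z ∂ν = t * ν.real (orb f p) := by
  rw [D.integral_eq hν (φ := fun z => t * bump (orb f p) ρ z)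
    (continuous_const.mul (bump_continuous _ _)), avg_bump D.mpos]
  have h1 : ∫ z in (orb f p)ᶜ, t * bump (orb f p) ρ z ∂ν = 0 := by
    apply integral_eq_zero_of_ae
    filter_upwards [D.ae_compl hν] with z hz
    rw [hb0 z hz.2]
    simp
  rw [h1]
  ring

lemma real_orb_le (ν : Measure (ℂ × ℂ)) (hν : IsInvariantProb f ν) :
    ν.real (orb f p) ≤ 1 := by
  have := hν.1
  exact measureReal_le_one

lemma entropy_nonneg' {ν : Measure (ℂ × ℂ)} (hν : IsInvariantProb f ν) : 0 ≤ ksEntropy ν f := by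
  have := hν.1
  exact ksEntropy_nonneg _ _

lemma exists_sup (D : CycleData f m p K U H) : ∃ S : ℝ, 0 ≤ S ∧
    pressure f (fun _ => 0) = (S : EReal) ∧
    ∀ ν, IsInvariantProb f ν → ksEntropy ν f ≤ (S : EReal) := by
  have hfe : ∀ ν, freeEnergy f (fun _ => (0 : ℝ)) ν = ksEntropy ν f := by
    intro ν
    unfold freeEnergy
    simp
  have hle : pressure f (fun _ => 0) ≤ (H : EReal) := by
    unfold pressure
    apply iSup_le
    intro ν
    apply iSup_le
    intro hν
    rw [hfe]
    exact D.bound ν hν.1 hν.2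
  have hge : ∀ ν, IsInvariantProb f ν → ksEntropy ν f ≤ pressure f (fun _ => 0) := by
    intro ν hν
    rw [← hfe ν]
    exact le_iSup_of_le ν (le_iSup_of_le hν le_rfl)
  have hcinv := cyc_inv (f := f) (p := p) D.meas D.mpos D.per
  have h0 : 0 ≤ pressure f (fun _ => 0) := (entropy_nonneg' hcinv).trans (hge _ hcinv)
  obtain ⟨S, hS⟩ : ∃ S : ℝ, pressure f (fun _ => 0) = (S : EReal) := by
    refine ⟨(pressure f (fun _ => 0)).toReal, (EReal.coe_toReal ?_ ?_).symm⟩
    · intro h; rw [h] at hle; simp at hle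
    · intro h; rw [h] at h0; simp at h0
  refine ⟨S, ?_, hS, ?_⟩
  · rw [hS] at h0
    exact_mod_cast h0
  · intro ν hν
    rw [← hS]
    exact hge ν hν

lemma isEq_iff {φ : ℂ × ℂ → ℝ} {ν : Measure (ℂ × ℂ)} {c : ℝ} (hp : pressure f φ = (c : EReal)) :
    IsEquilibriumState f φ ν ↔ IsInvariantProb f ν ∧ freeEnergy f φ ν = (c : EReal) := by
  unfold IsEquilibriumState
  rw [hp]

/-- The entropy of an invariant measure is a real number `h` with `0 ≤ h ≤ (1 - x) S`, where `x` is
the mass of the cycle, and the free energy of the weight `t b` is `h + t x`. -/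
lemma exists_real (D : CycleData f m p K U H) (hb0 : ∀ z ∉ U, bump (orb f p) ρ z = 0) {S : ℝ}
    (hS : ∀ ν, IsInvariantProb f ν → ksEntropy ν f ≤ (S : EReal)) {ν : Measure (ℂ × ℂ)}
    (hν : IsInvariantProb f ν) :
    ∃ h : ℝ, ksEntropy ν f = (h : EReal) ∧ 0 ≤ h ∧ h ≤ (1 - ν.real (orb f p)) * S ∧
      ∀ t : ℝ, freeEnergy f (fun z => t * bump (orb f p) ρ z) ν =
        ((h + t * ν.real (orb f p) : ℝ) : EReal) := by
  have h1 := D.entropy_le hν hS
  have h0 := entropy_nonneg' hν
  obtain ⟨h, hh⟩ : ∃ h : ℝ, ksEntropy ν f = (h : EReal) := by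
    refine ⟨(ksEntropy ν f).toReal, (EReal.coe_toReal ?_ ?_).symm⟩
    · intro h
      rw [h, top_le_iff] at h1
      exact EReal.coe_ne_top _ h1
    · intro h; rw [h] at h0; simp at h0
  refine ⟨h, hh, ?_, ?_, ?_⟩
  · rw [hh] at h0
    exact_mod_cast h0
  · rw [hh] at h1
    exact_mod_cast h1
  · intro t
    unfold freeEnergy
    rw [integral_bump D hb0 hν t, hh, ← EReal.coe_add]

/-- The phase transition along the weights `t b`, where `b` is a bump at an attracting or repelling
cycle. -/
theorem phase (D : CycleData f m p K U H) (hb0 : ∀ z ∉ U, bump (orb f p) ρ z = 0) :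
    ∃ S : ℝ, 0 ≤ S ∧ pressure f (fun _ => 0) = (S : EReal) ∧
    (∀ t : ℝ, 0 ≤ t →
      pressure f (fun z => t * bump (orb f p) ρ z) = ((max S t : ℝ) : EReal)) ∧
    (∀ t : ℝ, S < t → ∀ ν, IsEquilibriumState f (fun z => t * bump (orb f p) ρ z) ν ↔
      ν = cyc f m p) ∧
    (∀ t : ℝ, 0 ≤ t → t < S → ∀ ν, IsEquilibriumState f (fun z => t * bump (orb f p) ρ z) ν ↔
      IsEquilibriumState f (fun _ => 0) ν) ∧
    IsEquilibriumState f (fun z => S * bump (orb f p) ρ z) (cyc f m p) ∧
    (∀ ν, IsEquilibriumState f (fun _ => 0) ν →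
      IsEquilibriumState f (fun z => S * bump (orb f p) ρ z) ν) ∧
    ((∃ ν, IsInvariantProb f ν ∧ ν ≠ cyc f m p) → ∃ t : ℝ, 0 ≤ t ∧ t ≤ S ∧
      ¬ ∃! ν, IsEquilibriumState f (fun z => t * bump (orb f p) ρ z) ν) := by
  obtain ⟨S, hS0, hSp, hS⟩ := exists_sup D
  have hcinv := cyc_inv (f := f) (p := p) D.meas D.mpos D.per
  have hO := orb_meas D.mpos D.per
  -- the mass and the entropy of the cycle measure
  have hcm : (cyc f m p).real (orb f p) = 1 := by
    have h1 := integral_bump D hb0 hcinv 1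
    have h2 := integral_cyc (f := f) (m := m) (p := p) (fun z => 1 * bump (orb f p) ρ z)
    rw [h2, avg_bump D.mpos, one_mul] at h1
    exact h1.symm
  have hx1 : ∀ ν, IsInvariantProb f ν → ν.real (orb f p) ≤ 1 := fun ν hν => real_orb_le ν hν
  have hx0 : ∀ ν : Measure (ℂ × ℂ), 0 ≤ ν.real (orb f p) := fun ν => measureReal_nonneg
  have hz : ∀ ν, freeEnergy f (fun _ => (0 : ℝ)) ν = ksEntropy ν f := by
    intro ν
    unfold freeEnergy
    simp
  have hcE : ksEntropy (cyc f m p) f = ((0 : ℝ) : EReal) := by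
    obtain ⟨h, h1, h2, h3, _⟩ := exists_real D hb0 hS hcinv
    rw [hcm] at h3
    have : h = 0 := by linarith
    rw [h1, this]
  have hcF : ∀ t : ℝ, freeEnergy f (fun z => t * bump (orb f p) ρ z) (cyc f m p) =
      (t : EReal) := by
    intro t
    obtain ⟨h, h1, h2, h3, h4⟩ := exists_real D hb0 hS hcinv
    rw [hcm] at h3
    have : h = 0 := by linarith
    rw [h4 t, hcm, this]
    simp
  have hpress : ∀ t : ℝ, 0 ≤ t →
      pressure f (fun z => t * bump (orb f p) ρ z) = ((max S t : ℝ) : EReal) := by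
    intro t ht
    apply le_antisymm
    · unfold pressure
      apply iSup_le
      intro ν
      apply iSup_le
      intro hν
      obtain ⟨h, _, _, h3, h4⟩ := exists_real D hb0 hS hν
      rw [h4 t]
      have h5 := hx1 ν hν
      have h6 := hx0 ν
      have h7 : h + t * ν.real (orb f p) ≤ max S t := by
        have h8 : S ≤ max S t := le_max_left _ _
        have h9 : t ≤ max S t := le_max_right _ _
        have h10 : (1 - ν.real (orb f p)) * S ≤ (1 - ν.real (orb f p)) * max S t :=
          mul_le_mul_of_nonneg_left h8 (by linarith)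
        have h11 : t * ν.real (orb f p) ≤ max S t * ν.real (orb f p) :=
          mul_le_mul_of_nonneg_right h9 h6
        linarith
      exact_mod_cast h7
    · rcases le_total S t with h | h
      · rw [max_eq_right h, ← hcF t]
        exact le_iSup_of_le _ (le_iSup_of_le hcinv le_rfl)
      · rw [max_eq_left h, ← hSp]
        apply iSup_le
        intro ν
        apply iSup_le
        intro hν
        rw [hz]
        obtain ⟨e, h1, _, _, h4⟩ := exists_real D hb0 hS hν
        refine le_trans ?_ (le_iSup_of_le ν (le_iSup_of_le hν le_rfl))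
        rw [h1, h4 t]
        have := mul_nonneg ht (hx0 ν)
        have : e ≤ e + t * ν.real (orb f p) := by linarith
        exact_mod_cast this
  have h0iff : ∀ ν, IsEquilibriumState f (fun _ => 0) ν ↔
      IsInvariantProb f ν ∧ ksEntropy ν f = (S : EReal) := by
    intro ν
    rw [isEq_iff hSp, hz]
  have hcS : IsEquilibriumState f (fun z => S * bump (orb f p) ρ z) (cyc f m p) := by
    rw [isEq_iff (hpress S hS0), hcF S, max_self]
    exact ⟨hcinv, rfl⟩
  have h0S : ∀ ν, IsEquilibriumState f (fun _ => 0) ν →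
      IsEquilibriumState f (fun z => S * bump (orb f p) ρ z) ν := by
    intro ν hν
    rw [h0iff] at hν
    rw [isEq_iff (hpress S hS0), max_self]
    obtain ⟨hνi, hνe⟩ := hν
    refine ⟨hνi, ?_⟩
    obtain ⟨h, h1, h2, h3, h4⟩ := exists_real D hb0 hS hνi
    rw [h4 S]
    rw [h1] at hνe
    have h5 : h = S := by exact_mod_cast hνe
    have h6 := hx0 ν
    have h7 : S * ν.real (orb f p) = 0 := by
      have := mul_nonneg hS0 h6
      nlinarith
    rw [h7, h5, add_zero]
  refine ⟨S, hS0, hSp, hpress, ?_, ?_, hcS, h0S, ?_⟩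
  · intro t ht ν
    have hp := hpress t (hS0.trans ht.le)
    rw [max_eq_right ht.le] at hp
    rw [isEq_iff hp]
    constructor
    · rintro ⟨hν, hfe⟩
      obtain ⟨h, _, _, h3, h4⟩ := exists_real D hb0 hS hν
      rw [h4 t] at hfe
      have h5 : h + t * ν.real (orb f p) = t := by exact_mod_cast hfe
      have h6 := hx1 ν hν
      have h7 : ν.real (orb f p) = 1 := by
        by_contra hne
        have hlt : ν.real (orb f p) < 1 := lt_of_le_of_ne h6 hne
        nlinarith
      exact eq_cyc_of_full D hν h7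
    · rintro rfl
      exact ⟨hcinv, hcF t⟩
  · intro t ht0 ht ν
    have hp := hpress t ht0
    rw [max_eq_left ht.le] at hp
    rw [isEq_iff hp, h0iff]
    constructor
    · rintro ⟨hν, hfe⟩
      refine ⟨hν, ?_⟩
      obtain ⟨h, h1, _, h3, h4⟩ := exists_real D hb0 hS hν
      rw [h4 t] at hfe
      have h5 : h + t * ν.real (orb f p) = S := by exact_mod_cast hfe
      have h6 := hx0 ν
      have h7 : ν.real (orb f p) = 0 := by
        by_contra hne
        have hlt : 0 < ν.real (orb f p) := lt_of_le_of_ne h6 (Ne.symm hne)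
        nlinarith
      rw [h7, mul_zero, add_zero] at h5
      rw [h1, h5]
    · rintro ⟨hν, he⟩
      refine ⟨hν, ?_⟩
      obtain ⟨h, h1, _, h3, h4⟩ := exists_real D hb0 hS hν
      rw [h1] at he
      have h5 : h = S := by exact_mod_cast he
      have h6 := hx0 ν
      have h7 : ν.real (orb f p) = 0 := by
        by_contra hne
        have hlt : 0 < ν.real (orb f p) := lt_of_le_of_ne h6 (Ne.symm hne)
        nlinarith
      rw [h4 t, h7, mul_zero, add_zero, h5]
  · rintro ⟨μ, hμ, hμne⟩
    by_contra hcon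
    push Not at hcon
    obtain ⟨ν₀, hν₀, hν₀u⟩ := hcon 0 le_rfl hS0
    have h00 : (fun z => (0 : ℝ) * bump (orb f p) ρ z) = fun _ => 0 := by
      funext z
      rw [zero_mul]
    simp only [h00] at hν₀ hν₀u
    obtain ⟨ν₁, _, hν₁u⟩ := hcon S hS0 le_rfl
    have e1 : ν₀ = cyc f m p := (hν₁u _ (h0S _ hν₀)).trans (hν₁u _ hcS).symm
    have e2 := ((h0iff ν₀).1 hν₀).2
    rw [e1, hcE] at e2
    have hS00 : S = 0 := by exact_mod_cast e2.symm
    have e3 : IsEquilibriumState f (fun _ => 0) μ := by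
      rw [h0iff]
      refine ⟨hμ, le_antisymm (hS μ hμ) ?_⟩
      rw [hS00]
      exact_mod_cast entropy_nonneg' hμ
    exact hμne ((hν₀u μ e3).trans e1)

end phase

/-! ### Several sinks -/

lemma orb_fixed {f : ℂ × ℂ → ℂ × ℂ} {q : ℂ × ℂ} (h : f q = q) : orb f q = {q} := by
  ext z
  simp only [orb, Set.mem_range, Set.mem_singleton_iff]
  constructor
  · rintro ⟨i, rfl⟩
    exact Function.iterate_fixed h i
  · rintro rfl
    exact ⟨0, rfl⟩

/-- Finitely many attracting or repelling fixed points: for a weight with equal high peaks at all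
of them, the equilibrium states are exactly the probability measures carried by this set. -/
theorem several {f : ℂ × ℂ → ℂ × ℂ} (hf : IsHenonMap f) (O : Finset (ℂ × ℂ)) (hO : O.Nonempty)
    (hq : ∀ q ∈ O, Att f 1 q ∨ Rep f 1 q) :
    ∃ φ : ℂ × ℂ → ℝ, IsHolder φ ∧ HasCompactSupport φ ∧
      ∀ ν : Measure (ℂ × ℂ), IsEquilibriumState f φ ν ↔
        IsProbabilityMeasure ν ∧ ν (O : Set (ℂ × ℂ))ᶜ = 0 := by
  have hfix : ∀ q ∈ O, f q = q := by
    intro q hqO
    rcases hq q hqO with h | h <;> exact h.2.1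
  choose! K U H D using fun q (hqO : q ∈ O) => exists_cycleData hf (hq q hqO)
  obtain ⟨q₀, hq₀⟩ := hO
  have D₀ := D q₀ hq₀
  set V : Set (ℂ × ℂ) := ⋃ q ∈ O, U q with hV
  have hVo : IsOpen V := isOpen_biUnion fun q hqO => (D q hqO).openU
  have hsub : (O : Set (ℂ × ℂ)) ⊆ V := by
    intro q hqO
    have hqO' : q ∈ O := hqO
    rw [hV, Set.mem_iUnion₂]
    exact ⟨q, hqO', (D q hqO').mem 0⟩
  have hne : (O : Set (ℂ × ℂ)).Nonempty := ⟨q₀, hq₀⟩
  have hfin : (O : Set (ℂ × ℂ)).Finite := O.finite_toSet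
  have hOm : MeasurableSet (O : Set (ℂ × ℂ)) := hfin.measurableSet
  obtain ⟨ρ, hρ, hth⟩ := hfin.isCompact.exists_thickening_subset_open hVo hsub
  set b := bump (O : Set (ℂ × ℂ)) ρ with hb
  have hb0 : ∀ z ∉ V, b z = 0 := by
    intro z hz
    apply bump_eq_zero hρ
    by_contra h
    push Not at h
    exact hz (hth ((Metric.mem_thickening_iff_infDist_lt hne).2 h))
  have hbc : HasCompactSupport b := by
    apply HasCompactSupport.of_support_subset_isCompact (hfin.isCompact.cthickening (r := ρ))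
    intro z hz
    rw [Function.mem_support] at hz
    apply Metric.thickening_subset_cthickening
    rw [Metric.mem_thickening_iff_infDist_lt hne]
    by_contra h
    push Not at h
    exact hz (bump_eq_zero hρ h)
  have hpre : f ⁻¹' (O : Set (ℂ × ℂ)) = (O : Set (ℂ × ℂ)) := by
    ext z
    simp only [Set.mem_preimage, Finset.mem_coe]
    constructor
    · intro h
      have h1 := hfix _ h
      rwa [D₀.inj h1] at h
    · intro h
      rwa [hfix z h]
  -- the integral of the bump
  have hint : ∀ (t : ℝ) (ν : Measure (ℂ × ℂ)), IsInvariantProb f ν →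
      ∫ z, t * b z ∂ν = t * ν.real (O : Set (ℂ × ℂ)) := by
    intro t ν hν
    have := hν.1
    have h1 : ∀ᵐ z ∂ν, ∀ q ∈ O, z ∈ U q → z ∈ O := by
      rw [Filter.eventually_all_finset]
      intro q hqO
      filter_upwards [(D q hqO).sink ν hν.1 hν.2] with z hz hzU
      have h2 := hz hzU
      rw [orb_fixed (hfix q hqO), Set.mem_singleton_iff] at h2
      rwa [h2]
    have h2 : ∀ᵐ z ∂ν, t * b z = (O : Set (ℂ × ℂ)).indicator (fun _ => t) z := by
      filter_upwards [h1] with z hz
      by_cases hzO : z ∈ (O : Set (ℂ × ℂ))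
      · rw [Set.indicator_of_mem hzO, hb, bump_mem hzO, mul_one]
      · rw [Set.indicator_of_notMem hzO, hb0 z, mul_zero]
        intro hzV
        rw [hV, Set.mem_iUnion₂] at hzV
        obtain ⟨q, hqO, hzq⟩ := hzV
        exact hzO (hz q hqO hzq)
    rw [integral_congr_ae h2, integral_indicator hOm, setIntegral_const, smul_eq_mul, mul_comm]
  have hent : ∀ ν : Measure (ℂ × ℂ), IsInvariantProb f ν →
      ksEntropy ν f ≤ (((1 - ν.real (O : Set (ℂ × ℂ))) * H q₀ : ℝ) : EReal) := by
    intro ν hν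
    have := hν.1
    have := ksEntropy_le_of_invariant_set ν hν.2 hOm hpre 0 (H q₀)
      (by
        intro μ hμ _ h0 _
        have := hμ
        exact ksEntropy_finite hfin h0)
      (by
        intro μ hμ hT _ _
        exact D₀.bound μ hμ hT)
    simpa using this
  set t : ℝ := H q₀ + 1 with ht
  have hinv : ∀ ν : Measure (ℂ × ℂ), IsProbabilityMeasure ν → ν (O : Set (ℂ × ℂ))ᶜ = 0 →
      IsInvariantProb f ν := by
    intro ν hν h0
    refine ⟨hν, D₀.meas, ?_⟩
    have h1 : f =ᵐ[ν] id := by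
      have h2 : ∀ᵐ z ∂ν, z ∈ (O : Set (ℂ × ℂ)) := by
        rw [measure_eq_zero_iff_ae_notMem] at h0
        exact h0.mono fun z hz => by simpa using hz
      filter_upwards [h2] with z hz
      exact hfix z hz
    rw [Measure.map_congr h1, Measure.map_id]
  have hfull : ∀ ν : Measure (ℂ × ℂ), IsProbabilityMeasure ν → ν (O : Set (ℂ × ℂ))ᶜ = 0 →
      freeEnergy f (fun z => t * b z) ν = (t : EReal) := by
    intro ν hν h0
    have hνi := hinv ν hν h0
    have := hν
    have h1 : ν.real (O : Set (ℂ × ℂ)) = 1 := by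
      have h2 : ν (O : Set (ℂ × ℂ)) = 1 := (prob_compl_eq_zero_iff hOm).1 h0
      rw [Measure.real, h2, ENNReal.toReal_one]
    unfold freeEnergy
    rw [hint t ν hνi, h1, mul_one,
      le_antisymm (ksEntropy_finite hfin h0) (entropy_nonneg' hνi), zero_add]
  have hd : (Measure.dirac q₀ : Measure (ℂ × ℂ)) (O : Set (ℂ × ℂ))ᶜ = 0 := by
    rw [Measure.dirac_apply' _ hOm.compl, Set.indicator_of_notMem]
    simpa using hq₀
  have hle : ∀ ν, IsInvariantProb f ν → freeEnergy f (fun z => t * b z) ν ≤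
      (((1 - ν.real (O : Set (ℂ × ℂ))) * H q₀ + t * ν.real (O : Set (ℂ × ℂ)) : ℝ) : EReal) := by
    intro ν hν
    unfold freeEnergy
    rw [hint t ν hν, EReal.coe_add]
    exact add_le_add (hent ν hν) le_rfl
  have hx1 : ∀ ν : Measure (ℂ × ℂ), IsInvariantProb f ν → ν.real (O : Set (ℂ × ℂ)) ≤ 1 := by
    intro ν hν
    have := hν.1
    exact measureReal_le_one
  have hp : pressure f (fun z => t * b z) = (t : EReal) := by
    apply le_antisymm
    · unfold pressure
      apply iSup_le
      intro ν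
      apply iSup_le
      intro hν
      refine le_trans (hle ν hν) ?_
      have h1 := hx1 ν hν
      have : (1 - ν.real (O : Set (ℂ × ℂ))) * H q₀ + t * ν.real (O : Set (ℂ × ℂ)) ≤ t := by
        rw [ht]; nlinarith
      exact_mod_cast this
    · rw [← hfull _ inferInstance hd]
      exact le_iSup_of_le _ (le_iSup_of_le (hinv _ inferInstance hd) le_rfl)
  refine ⟨fun z => t * b z, isHolder_bump _ hρ t, hbc.mul_left, ?_⟩
  intro ν
  rw [isEq_iff hp]
  constructor
  · rintro ⟨hν, hfe⟩
    have := hν.1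
    refine ⟨hν.1, ?_⟩
    have h1 := hle ν hν
    rw [hfe] at h1
    have h2 : t ≤ (1 - ν.real (O : Set (ℂ × ℂ))) * H q₀ + t * ν.real (O : Set (ℂ × ℂ)) := by
      exact_mod_cast h1
    have h3 : ν.real (O : Set (ℂ × ℂ)) = 1 := by
      have := hx1 ν hν
      by_contra hne
      have hlt : ν.real (O : Set (ℂ × ℂ)) < 1 := lt_of_le_of_ne this hne
      rw [ht] at h2
      nlinarith
    rw [prob_compl_eq_zero_iff hOm]
    have : ν (O : Set (ℂ × ℂ)) = ENNReal.ofReal (ν.real (O : Set (ℂ × ℂ))) := by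
      rw [ofReal_measureReal]
    rw [this, h3]
    simp
  · rintro ⟨hν, h0⟩
    exact ⟨hinv ν hν h0, hfull ν hν h0⟩

/-! ### Elementary maps -/

lemma differentiable_elementary (P : Polynomial ℂ) (a : ℂ) :
    Differentiable ℂ (elementaryHenon P a) := by
  unfold elementaryHenon
  have h : Differentiable ℂ (fun z : ℂ × ℂ => P.eval z.2) := P.differentiable.comp differentiable_snd
  exact differentiable_snd.prodMk (h.sub (differentiable_fst.const_mul a))

lemma conj_elementary (P : Polynomial ℂ) (a : ℂ) : conj (elementaryHenon P a) = elemMap P a := by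
  rw [← conj_elemMap, conj_conj]

lemma att_elemMap (P : Polynomial ℂ) (a y : ℂ) (hy : P.eval y = (1 + a) * y)
    (h : ‖P.derivative.eval y‖ + ‖a‖ < 1) : Att (elemMap P a) 1 (y, y) := by
  obtain ⟨h1, h2, h3⟩ := att_elementary P a y hy h
  refine ⟨h1, ?_, ?_⟩
  · simp only [Function.iterate_one, elemMap]
    rw [hy]
    congr 1
    ring
  · intro c hc
    apply h3 c
    apply eig_conj (differentiable_elementary P a) 1 (y, y)
    rw [conj_elementary]
    exact hc

lemma rep_elemMap (P : Polynomial ℂ) (a y : ℂ) (hy : P.eval y = (1 + a) * y)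
    (h : ‖P.derivative.eval y‖ + 1 < ‖a‖) : Rep (elemMap P a) 1 (y, y) := by
  obtain ⟨h1, h2, h3⟩ := rep_elementary P a y hy h
  refine ⟨h1, ?_, ?_⟩
  · simp only [Function.iterate_one, elemMap]
    rw [hy]
    congr 1
    ring
  · intro c hc
    apply h3 c
    apply eig_conj (differentiable_elementary P a) 1 (y, y)
    rw [conj_elementary]
    exact hc

/-- A second fixed point. -/
lemma exists_other_root (P : Polynomial ℂ) (a y : ℂ) (hP : 2 ≤ P.natDegree)
    (hy : P.eval y = (1 + a) * y) (h : P.derivative.eval y ≠ 1 + a) :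
    ∃ y' : ℂ, y' ≠ y ∧ P.eval y' = (1 + a) * y' := by
  set Q : Polynomial ℂ := P - Polynomial.C (1 + a) * Polynomial.X with hQ
  have hQy : Q.IsRoot y := by
    rw [Polynomial.IsRoot, hQ]
    simp [hy]
  obtain ⟨R, hR⟩ := Polynomial.dvd_iff_isRoot.2 hQy
  have hdl : (Polynomial.C (1 + a) * Polynomial.X : Polynomial ℂ).natDegree < P.natDegree :=
    lt_of_le_of_lt ((Polynomial.natDegree_C_mul_le _ _).trans Polynomial.natDegree_X_le) (by omega)
  have hQd : Q.natDegree = P.natDegree := by
    rw [hQ]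
    exact Polynomial.natDegree_sub_eq_left_of_natDegree_lt hdl
  have hQ0 : Q ≠ 0 := by
    intro h0
    rw [h0, Polynomial.natDegree_zero] at hQd
    omega
  have hR0 : R ≠ 0 := by
    rintro rfl
    rw [mul_zero] at hR
    exact hQ0 hR
  have hRd : R.natDegree = P.natDegree - 1 := by
    have h1 := Polynomial.natDegree_mul (Polynomial.X_sub_C_ne_zero y) hR0
    rw [← hR, hQd, Polynomial.natDegree_X_sub_C] at h1
    omega
  obtain ⟨y', hy'⟩ := Complex.exists_root (f := R) (by
    rw [← Polynomial.natDegree_pos_iff_degree_pos, hRd]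
    omega)
  refine ⟨y', ?_, ?_⟩
  · rintro rfl
    apply h
    have h1 : Q.derivative.eval y' = 0 := by
      rw [hR, Polynomial.derivative_mul]
      simp [hy'.eq_zero]
    rw [hQ] at h1
    simp at h1
    linear_combination h1
  · have h1 : Q.eval y' = 0 := by
      rw [hR, Polynomial.eval_mul, hy'.eq_zero, mul_zero]
    rw [hQ] at h1
    simp at h1
    linear_combination h1

/-- Interpolating polynomials with many attracting fixed points. -/
lemma exists_poly (N : ℕ) (a : ℂ) (ha : ‖a‖ < 1) : ∃ P : Polynomial ℂ, 2 ≤ P.natDegree ∧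
    ∀ j : ℕ, j < N + 2 → P.eval (j : ℂ) = (1 + a) * j ∧ P.derivative.eval (j : ℂ) = 0 := by
  classical
  set s := Finset.range (N + 2) with hs
  set v : ℕ → ℂ := fun j => (j : ℂ) with hv
  have hinj : Set.InjOn v s := fun i _ j _ h => by
    have : (i : ℂ) = (j : ℂ) := h
    exact_mod_cast this
  set W := Lagrange.nodal s v with hW
  set V := Lagrange.interpolate s v (fun j => -(W.derivative.eval (v j))⁻¹) with hV
  have hWd : ∀ j ∈ s, W.derivative.eval (v j) ≠ 0 := by
    intro j hj
    rw [hW, Lagrange.eval_nodal_derivative_eval_node_eq hj]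
    rw [Lagrange.eval_nodal, Finset.prod_ne_zero_iff]
    intro i hi
    rw [Finset.mem_erase] at hi
    rw [sub_ne_zero]
    intro h
    exact hi.1 (hinj hj hi.2 h).symm
  set P : Polynomial ℂ := Polynomial.C (1 + a) * (Polynomial.X + W * V) with hP
  have h1 : ∀ j : ℕ, j < N + 2 → P.eval (j : ℂ) = (1 + a) * j ∧
      P.derivative.eval (j : ℂ) = 0 := by
    intro j hj
    have hjs : j ∈ s := Finset.mem_range.2 hj
    have e1 : W.eval (v j) = 0 := Lagrange.eval_nodal_at_node hjs
    have e2 : V.eval (v j) = -(W.derivative.eval (v j))⁻¹ :=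
      Lagrange.eval_interpolate_at_node _ hinj hjs
    have e3 := hWd j hjs
    change P.eval (v j) = _ ∧ P.derivative.eval (v j) = 0
    constructor
    · rw [hP]
      simp only [Polynomial.eval_mul, Polynomial.eval_add, Polynomial.eval_X, Polynomial.eval_C,
        e1]
      ring
    · rw [hP]
      simp only [Polynomial.derivative_mul, Polynomial.derivative_C, Polynomial.derivative_add,
        Polynomial.derivative_X, Polynomial.eval_mul, Polynomial.eval_add, Polynomial.eval_X,
        Polynomial.eval_C, Polynomial.eval_one, Polynomial.eval_zero, e1, e2]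
      field_simp
      ring
  refine ⟨P, ?_, h1⟩
  by_contra hcon
  push Not at hcon
  obtain ⟨b, c, hbc⟩ := Polynomial.exists_eq_X_add_C_of_natDegree_le_one (p := P) (by omega)
  have e0 := (h1 0 (by omega)).1
  have e1 := (h1 1 (by omega)).1
  have e2 := (h1 0 (by omega)).2
  rw [hbc] at e0 e1 e2
  simp at e0 e1 e2
  rw [e0, e2] at e1
  have : a = -1 := by linear_combination -e1
  rw [this] at ha
  simp at ha

end Pool.Agent.W2helper6.HN
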